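import Mathlib

set_option autoImplicit false

namespace Pool.Agent.EBC

/-! The combinatorics and topology of this file is the work of helper89 (the proof of the frozen
statement S12958), with the part on the Talagrand compact restated for an arbitrary compact
separating set of continuous functions. -/

universe u

open Topology Set

/-- The index set, with the discrete topology. -/
def Td : Type := ℕ → ℕ

instance : TopologicalSpace Td := ⊥
instance : DiscreteTopology Td := ⟨rfl⟩

/-- The `n`-th coordinate of an index. -/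
def Td.co (a : Td) (n : ℕ) : ℕ := (a : ℕ → ℕ) n

theorem Td.ext_co {a b : Td} (h : ∀ n, a.co n = b.co n) : a = b := funext h

/-- The space `X`. -/
abbrev XX : Type := {p : (Td → Bool) × (ℕ → ℕ) // ∀ a : Td, p.1 a = true → ∀ n, a.co n ≤ p.2 n}

theorem root_lemma {U T : Type} [DecidableEq U] (W : Set (Finset U × T))
    (hW : ∀ C : Set T, C.Countable → ∃ w ∈ W, w.2 ∉ C) :
    ∃ R : Finset U, ∀ (C : Set T) (D : Set U), C.Countable → D.Countable →
      ∃ w ∈ W, R ⊆ w.1 ∧ w.2 ∉ C ∧ ∀ d ∈ w.1, d ∉ R → d ∉ D := by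
  classical
  obtain ⟨k, hk⟩ : ∃ k : ℕ, ∀ C : Set T, C.Countable → ∃ w ∈ W, w.1.card = k ∧ w.2 ∉ C := by
    by_contra hcon
    push Not at hcon
    choose C hC hCk using hcon
    obtain ⟨w, hw, hw2⟩ := hW (⋃ k, C k) (Set.countable_iUnion hC)
    exact hw2 (Set.mem_iUnion.2 ⟨w.1.card, hCk w.1.card w hw rfl⟩)
  let Big : Finset U → Prop := fun R =>
    ∀ C : Set T, C.Countable → ∃ w ∈ W, w.1.card = k ∧ R ⊆ w.1 ∧ w.2 ∉ C
  have hBig0 : Big ∅ := by
    intro C hC
    obtain ⟨w, hw, hw1, hw2⟩ := hk C hC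
    exact ⟨w, hw, hw1, Finset.empty_subset _, hw2⟩
  have hbound : ∀ R, Big R → R.card ≤ k := by
    intro R hR
    obtain ⟨w, hw, hw1, hw2, -⟩ := hR ∅ countable_empty
    exact hw1 ▸ Finset.card_le_card hw2
  let P : ℕ → Prop := fun n => ∃ R, Big R ∧ R.card = n
  have hP0 : P 0 := ⟨∅, hBig0, rfl⟩
  obtain ⟨R, hR, hRc⟩ : P (Nat.findGreatest P k) := Nat.findGreatest_spec (Nat.zero_le k) hP0
  have hmax : ∀ R', Big R' → R'.card ≤ R.card := by
    intro R' hR'
    rw [hRc]
    exact Nat.le_findGreatest (hbound R' hR') ⟨R', hR', rfl⟩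
  refine ⟨R, ?_⟩
  intro C D hC hD
  by_contra hcon
  push Not at hcon
  have h1 : ∀ d : U, ∃ Cd : Set T, Cd.Countable ∧ (d ∉ R → ∀ w ∈ W, w.1.card = k →
      insert d R ⊆ w.1 → w.2 ∈ Cd) := by
    intro d
    by_cases hd : d ∈ R
    · exact ⟨∅, countable_empty, fun h => absurd hd h⟩
    · have hnot : ¬ Big (insert d R) := by
        intro h
        have := hmax _ h
        rw [Finset.card_insert_of_notMem hd] at this
        omega
      simp only [Big] at hnot
      push Not at hnot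
      obtain ⟨Cd, hCd, h2⟩ := hnot
      exact ⟨Cd, hCd, fun _ => h2⟩
  choose Cd hCd hCd2 using h1
  obtain ⟨w, hw, hw1, hw2, hw3⟩ := hR (C ∪ ⋃ d ∈ D, Cd d) (hC.union (hD.biUnion fun d _ => hCd d))
  have hw4 : w.2 ∉ C := fun h => hw3 (Or.inl h)
  obtain ⟨d, hd1, hd2, hd3⟩ := hcon w hw hw2 hw4
  apply hw3
  right
  exact mem_biUnion hd3 (hCd2 d hd2 w hw hw1 (Finset.insert_subset hd1 hw2))

theorem bound_lemma (W : Set (Finset (Td × Bool) × Td)) (R : Finset (Td × Bool))
    (h : ∀ (C : Set Td) (D : Set (Td × Bool)), C.Countable → D.Countable →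
      ∃ w ∈ W, R ⊆ w.1 ∧ w.2 ∉ C ∧ ∀ d ∈ w.1, d ∉ R → d ∉ D) :
    ∃ y : ℕ → ℕ, ∀ m : ℕ, ∀ (C : Set Td) (D : Set (Td × Bool)), C.Countable → D.Countable →
      ∃ w ∈ W, R ⊆ w.1 ∧ w.2 ∉ C ∧ (∀ d ∈ w.1, d ∉ R → d ∉ D) ∧
        ∀ i < m, w.2.co i ≤ y i ∧ ∀ d ∈ w.1, d.1.co i ≤ y i := by
  by_contra hcon
  push Not at hcon
  have h1 : ∀ t : (m : ℕ) × (Fin m → ℕ), ∃ (C : Set Td) (D : Set (Td × Bool)), C.Countable ∧
      D.Countable ∧ ((∃ (C : Set Td) (D : Set (Td × Bool)), C.Countable ∧ D.Countable ∧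
        ∀ w ∈ W, R ⊆ w.1 → w.2 ∉ C → (∀ d ∈ w.1, d ∉ R → d ∉ D) →
        ¬ ∀ i : Fin t.1, w.2.co i ≤ t.2 i ∧ ∀ d ∈ w.1, d.1.co i ≤ t.2 i) →
        ∀ w ∈ W, R ⊆ w.1 → w.2 ∉ C → (∀ d ∈ w.1, d ∉ R → d ∉ D) →
        ¬ ∀ i : Fin t.1, w.2.co i ≤ t.2 i ∧ ∀ d ∈ w.1, d.1.co i ≤ t.2 i) := by
    intro t
    by_cases ht : (∃ (C : Set Td) (D : Set (Td × Bool)), C.Countable ∧ D.Countable ∧
        ∀ w ∈ W, R ⊆ w.1 → w.2 ∉ C → (∀ d ∈ w.1, d ∉ R → d ∉ D) →
        ¬ ∀ i : Fin t.1, w.2.co i ≤ t.2 i ∧ ∀ d ∈ w.1, d.1.co i ≤ t.2 i)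
    · obtain ⟨C, D, hC, hD, h2⟩ := ht
      exact ⟨C, D, hC, hD, fun _ => h2⟩
    · exact ⟨∅, ∅, countable_empty, countable_empty, fun h => absurd h ht⟩
  choose C D hC hD hCD using h1
  obtain ⟨w, hw, hw1, hw2, hw3⟩ := h (⋃ t, C t) (⋃ t, D t) (countable_iUnion hC)
    (countable_iUnion hD)
  obtain ⟨m, C', D', hC', hD', h2⟩ := hcon (fun i => max (w.2.co i) (w.1.sup fun d => d.1.co i))
  refine hCD ⟨m, fun i => max (w.2.co i) (w.1.sup fun d => d.1.co i)⟩
    ⟨C', D', hC', hD', ?_⟩ w hw hw1 ?_ ?_ ?_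
  · intro w' hw' hw1' hw2' hw3' hall
    obtain ⟨i, hi, h3⟩ := h2 w' hw' hw1' hw2' hw3'
    have h4 := hall ⟨i, hi⟩
    obtain ⟨d, hd, hlt⟩ := h3 h4.1
    exact absurd (h4.2 d hd) (not_le.2 hlt)
  · exact fun hmem => hw2 (mem_iUnion.2 ⟨_, hmem⟩)
  · exact fun d hd hdR hmem => hw3 d hd hdR (mem_iUnion.2 ⟨_, hmem⟩)
  · intro i
    refine ⟨le_max_left _ _, fun d hd => ?_⟩
    exact (Finset.le_sup (f := fun d : Td × Bool => d.1.co i) hd).trans (le_max_right _ _)

/-- the sequence lemma -/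
theorem seq_lemma (W : Set (Finset (Td × Bool) × Td)) 
    (hW : ∀ C : Set Td, C.Countable → ∃ w ∈ W, w.2 ∉ C) :
    ∃ (R : Finset (Td × Bool)) (w : ℕ → Finset (Td × Bool) × Td) (y : ℕ → ℕ),
      (∀ i, w i ∈ W) ∧ (∀ i, R ⊆ (w i).1) ∧
      (∀ i j, i < j → ∀ d ∈ (w j).1, d ∉ R → (d.1, true) ∉ (w i).1 ∧ (d.1, false) ∉ (w i).1
        ∧ d.1 ≠ (w i).2) ∧
      (∀ i j, i < j → (w j).2 ≠ (w i).2 ∧ ((w j).2, true) ∉ (w i).1 ∧ ((w j).2, false) ∉ (w i).1) ∧
      (∀ j i, (w i).2.co j ≤ y j ∧ ∀ d ∈ (w i).1, d.1.co j ≤ y j) := by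
  classical
  obtain ⟨R, hR⟩ := root_lemma W hW
  obtain ⟨y, hy⟩ := bound_lemma W R hR
  obtain ⟨F, hF1, hF2⟩ := exists_seq_of_forall_finset_exists
    (α := ℕ × (Finset (Td × Bool) × Td))
    (P := fun x => x.2 ∈ W ∧ R ⊆ x.2.1 ∧
      ∀ i < x.1, x.2.2.co i ≤ y i ∧ ∀ d ∈ x.2.1, d.1.co i ≤ y i)
    (r := fun x x' => x.1 < x'.1 ∧ (∀ d ∈ x'.2.1, d ∉ R → (d.1, true) ∉ x.2.1 ∧
        (d.1, false) ∉ x.2.1 ∧ d.1 ≠ x.2.2) ∧
        (x'.2.2 ≠ x.2.2 ∧ (x'.2.2, true) ∉ x.2.1 ∧ (x'.2.2, false) ∉ x.2.1)) (by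
      intro s hs
      obtain ⟨w, hw, hw1, hw2, hw3, hw4⟩ := hy (s.sup (fun x => x.1 + 1))
        (⋃ x ∈ s, ({x.2.2} ∪ Prod.fst '' (x.2.1 : Set (Td × Bool))))
        (⋃ x ∈ s, (({x.2.2} ∪ Prod.fst '' (x.2.1 : Set (Td × Bool))) ×ˢ (univ : Set Bool)))
        (s.countable_toSet.biUnion fun x _ => (countable_singleton _).union
          (x.2.1.countable_toSet.image _))
        (s.countable_toSet.biUnion fun x _ => ((countable_singleton _).union
          (x.2.1.countable_toSet.image _)).prod countable_univ)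
      refine ⟨(s.sup (fun x => x.1 + 1), w), ⟨hw, hw1, hw4⟩, ?_⟩
      intro x hx
      refine ⟨?_, ?_, ?_⟩
      · have := Finset.le_sup (f := fun x : ℕ × (Finset (Td × Bool) × Td) => x.1 + 1) hx
        exact this
      · intro d hd hdR
        have h1 := hw3 d hd hdR
        have h2 : d.1 ∉ ({x.2.2} ∪ Prod.fst '' (x.2.1 : Set (Td × Bool)) : Set Td) := by
          intro hmem
          exact h1 (mem_biUnion hx ⟨hmem, mem_univ _⟩)
        refine ⟨fun h => h2 (Or.inr ⟨_, h, rfl⟩), fun h => h2 (Or.inr ⟨_, h, rfl⟩),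
          fun h => h2 (Or.inl h)⟩
      · have h2 : w.2 ∉ ({x.2.2} ∪ Prod.fst '' (x.2.1 : Set (Td × Bool)) : Set Td) := by
          intro hmem
          exact hw2 (mem_biUnion hx hmem)
        exact ⟨fun h => h2 (Or.inl h), fun h => h2 (Or.inr ⟨_, h, rfl⟩),
          fun h => h2 (Or.inr ⟨_, h, rfl⟩)⟩)
  have hidx : ∀ n, n ≤ (F n).1 := by
    intro n
    induction n with
    | zero => exact Nat.zero_le _
    | succ n ih => exact lt_of_le_of_lt ih (hF2 n (n + 1) (Nat.lt_succ_self n)).1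
  have hbd : ∀ j, ∃ M, ∀ i, (F i).2.2.co j ≤ M ∧ ∀ d ∈ (F i).2.1, d.1.co j ≤ M := by
    intro j
    refine ⟨max (y j) ((Finset.range (j + 1)).sup fun i =>
      max ((F i).2.2.co j) ((F i).2.1.sup fun d => d.1.co j)), ?_⟩
    intro i
    by_cases hij : i ≤ j
    · have h1 := Finset.le_sup (f := fun i =>
        max ((F i).2.2.co j) ((F i).2.1.sup fun d => d.1.co j)) 
        (Finset.mem_range.2 (Nat.lt_succ_of_le hij))
      refine ⟨?_, fun d hd => ?_⟩
      · exact (le_max_left _ _).trans (h1.trans (le_max_right _ _))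
      · have h2 := Finset.le_sup (f := fun d : Td × Bool => d.1.co j) hd
        exact (h2.trans (le_max_right _ _)).trans (h1.trans (le_max_right _ _))
    · have h1 := (hF1 i).2.2 j (lt_of_lt_of_le (not_le.1 hij) (hidx i))
      exact ⟨h1.1.trans (le_max_left _ _), fun d hd => (h1.2 d hd).trans (le_max_left _ _)⟩
  choose y' hy' using hbd
  exact ⟨R, fun i => (F i).2, y', fun i => (hF1 i).1, fun i => (hF1 i).2.1,
    fun i j hij => (hF2 i j hij).2.1, fun i j hij => (hF2 i j hij).2.2, hy'⟩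


/-- restriction of a point to a set of indices -/
noncomputable def restr (C : Set Td) (p : XX) : XX :=
  open Classical in
  ⟨(fun t => if t ∈ C then p.1.1 t else false, p.1.2), fun a ha n => p.2 a (by
    by_cases h : a ∈ C
    · simpa [h] using ha
    · simp [h] at ha) n⟩

theorem restr_of_mem {C : Set Td} {p : XX} {t : Td} (h : t ∈ C) :
    (restr C p).1.1 t = p.1.1 t := by simp [restr, h]

theorem restr_of_notMem {C : Set Td} {p : XX} {t : Td} (h : t ∉ C) :
    (restr C p).1.1 t = false := by simp [restr, h]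

theorem restr_snd (C : Set Td) (p : XX) : (restr C p).1.2 = p.1.2 := rfl

theorem nbhd_lemma (f : XX → ℝ) (hf : Continuous f) (p : XX) (ε : ℝ) (hε : 0 < ε) :
    ∃ (F : Finset Td) (n : ℕ), ∀ p' : XX, (∀ t ∈ F, p'.1.1 t = p.1.1 t) →
      (∀ i < n, p'.1.2 i = p.1.2 i) → |f p' - f p| < ε := by
  have hopen : IsOpen {p' : XX | |f p' - f p| < ε} :=
    ((hf.sub continuous_const).abs).isOpen_preimage _ isOpen_Iio
  obtain ⟨V, hV, hVe⟩ := isOpen_induced_iff.1 hopen
  have hpV : (p : (Td → Bool) × (ℕ → ℕ)) ∈ V := by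
    have : p ∈ Subtype.val ⁻¹' V := by
      rw [hVe]
      simpa using hε
    exact this
  obtain ⟨V1, V2, hV1, hV2, hp1, hp2, hsub⟩ := isOpen_prod_iff.1 hV p.1.1 p.1.2 hpV
  obtain ⟨I1, u1, hu1, hs1⟩ := isOpen_pi_iff.1 hV1 _ hp1
  obtain ⟨I2, u2, hu2, hs2⟩ := isOpen_pi_iff.1 hV2 _ hp2
  refine ⟨I1, I2.sup id + 1, ?_⟩
  intro p' h1 h2
  have hmem : (p' : (Td → Bool) × (ℕ → ℕ)) ∈ V := by
    apply hsub
    refine ⟨hs1 ?_, hs2 ?_⟩
    · intro t ht
      rw [h1 t ht]
      exact (hu1 t ht).2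
    · intro i hi
      rw [h2 i (Nat.lt_succ_of_le (Finset.le_sup (f := id) hi))]
      exact (hu2 i hi).2
  have : p' ∈ Subtype.val ⁻¹' V := hmem
  rw [hVe] at this
  exact this

/-- If `f` changes under restriction to `C`, it changes when a single index outside `C` is
removed. -/
theorem one_step (f : XX → ℝ) (hf : Continuous f) (C : Set Td) (p : XX)
    (h : f (restr C p) ≠ f p) :
    ∃ (p0 p1 : XX) (a : Td), a ∉ C ∧ f p0 ≠ f p1 ∧ p0.1.2 = p1.1.2 ∧ p0.1.1 a = false ∧
      p1.1.1 a = true ∧ ∀ t, t ≠ a → p0.1.1 t = p1.1.1 t := by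
  classical
  have key : ∃ (F : Finset Td) (a : Td), f (restr (C ∪ F) p) ≠ f (restr (C ∪ insert a F) p) := by
    by_contra hcon
    push Not at hcon
    have hall : ∀ F : Finset Td, f (restr (C ∪ F) p) = f (restr C p) := by
      intro F
      induction F using Finset.induction_on with
      | empty => simp
      | insert a s ha ih =>
        rw [← ih, hcon s a, Finset.coe_insert]
    obtain ⟨F, n, hF⟩ := nbhd_lemma f hf p |f (restr C p) - f p| (abs_pos.2 (sub_ne_zero.2 h))
    have h1 := hF (restr (C ∪ F) p) (fun t ht => restr_of_mem (Or.inr ht)) (fun i _ => rfl)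
    rw [hall F] at h1
    exact lt_irrefl _ h1
  obtain ⟨F, a, hne⟩ := key
  have haCF : a ∉ C ∪ (F : Set Td) := by
    intro ha
    apply hne
    rw [union_insert, Set.insert_eq_of_mem ha]
  have hne' : ∀ t, t ≠ a → (restr (C ∪ F) p).1.1 t = (restr (C ∪ insert a F) p).1.1 t := by
    intro t ht
    by_cases hmem : t ∈ C ∪ (F : Set Td)
    · rw [restr_of_mem hmem, restr_of_mem]
      rw [union_insert]
      exact Or.inr hmem
    · rw [restr_of_notMem hmem, restr_of_notMem]
      rw [union_insert]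
      rintro (h1 | h1)
      · exact ht h1
      · exact hmem h1
  refine ⟨restr (C ∪ F) p, restr (C ∪ insert a F) p, a, fun hC => haCF (Or.inl hC), hne, rfl,
    restr_of_notMem haCF, ?_, hne'⟩
  rw [restr_of_mem (by rw [union_insert]; exact Or.inl rfl)]
  by_contra hpa
  apply hne
  congr 1
  apply Subtype.ext
  refine Prod.ext ?_ rfl
  funext t
  by_cases ht : t = a
  · subst ht
    rw [restr_of_notMem haCF, restr_of_mem (by rw [union_insert]; exact Or.inl rfl)]
    simpa using hpa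
  · exact hne' t ht

/-- The type of a witness. -/
structure Ty where
  u : ℚ
  v : ℚ
  d : ℚ
  n : ℕ
  s : Fin n → ℕ

theorem countable_Ty : Countable Ty := by
  have : Function.Injective (fun x : Ty =>
      ((x.u, x.v, x.d), (⟨x.n, x.s⟩ : (n : ℕ) × (Fin n → ℕ)))) := by
    rintro ⟨u, v, d, n, s⟩ ⟨u', v', d', n', s'⟩ h
    simp only [Prod.mk.injEq, Sigma.mk.injEq] at h
    obtain ⟨⟨rfl, rfl, rfl⟩, rfl, h2⟩ := h
    cases h2
    rfl
  exact this.countable

/-- `f` witnesses `(Z, a)` of type `x`. -/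
def Wf (f : XX → ℝ) (x : Ty) (w : Finset (Td × Bool) × Td) : Prop :=
  (∀ t, ¬ ((t, true) ∈ w.1 ∧ (t, false) ∈ w.1)) ∧ (w.2, true) ∉ w.1 ∧ (w.2, false) ∉ w.1 ∧
  (∀ i : Fin x.n, w.2.co i ≤ x.s i ∧ ∀ t, (t, true) ∈ w.1 → t.co i ≤ x.s i) ∧
  (∀ p : XX, (∀ d ∈ w.1, p.1.1 d.1 = d.2) → (∀ i : Fin x.n, p.1.2 i = x.s i) →
    (p.1.1 w.2 = false → |f p - x.u| < x.d) ∧ (p.1.1 w.2 = true → |f p - x.v| < x.d))

theorem exists_witness (f : XX → ℝ) (hf : Continuous f) (C : Set Td) (p : XX)
    (h : f (restr C p) ≠ f p) :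
    ∃ (x : Ty) (w : Finset (Td × Bool) × Td), 2 * (x.d : ℝ) < |(x.u : ℝ) - x.v| ∧ w.2 ∉ C ∧
      Wf f x w := by
  classical
  obtain ⟨p0, p1, a, haC, hne, hsnd, h0, h1, hagree⟩ := one_step f hf C p h
  set D : ℝ := |f p0 - f p1| with hD
  have hDpos : 0 < D := abs_pos.2 (sub_ne_zero.2 hne)
  obtain ⟨d, hd1, hd2⟩ := exists_rat_btwn (show (0 : ℝ) < D / 8 by positivity)
  have hdpos : (0 : ℝ) < d := hd1
  obtain ⟨u, hu1, hu2⟩ := exists_rat_btwn (show f p0 - (d : ℝ) / 2 < f p0 + (d : ℝ) / 2 by linarith)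
  obtain ⟨v, hv1, hv2⟩ := exists_rat_btwn (show f p1 - (d : ℝ) / 2 < f p1 + (d : ℝ) / 2 by linarith)
  have hu : |f p0 - u| < (d : ℝ) / 2 := by rw [abs_lt]; constructor <;> linarith
  have hv : |f p1 - v| < (d : ℝ) / 2 := by rw [abs_lt]; constructor <;> linarith
  obtain ⟨F0, n0, hF0⟩ := nbhd_lemma f hf p0 ((d : ℝ) / 2) (by positivity)
  obtain ⟨F1, n1, hF1⟩ := nbhd_lemma f hf p1 ((d : ℝ) / 2) (by positivity)
  refine ⟨⟨u, v, d, max n0 n1, fun i => p0.1.2 i⟩,
    (((F0 ∪ F1).erase a).image (fun t => (t, p0.1.1 t)), a), ?_, haC, ?_, ?_, ?_, ?_, ?_⟩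
  · simp only
    have h3 : D ≤ |f p0 - u| + |(u : ℝ) - v| + |f p1 - v| := by
      rw [hD]
      have h4 : f p0 - f p1 = (f p0 - u) + ((u : ℝ) - v) - (f p1 - v) := by ring
      rw [h4]
      exact (abs_sub _ _).trans (add_le_add (abs_add_le _ _) le_rfl)
    linarith
  · rintro t ⟨ht1, ht2⟩
    simp only [Finset.mem_image, Prod.mk.injEq] at ht1 ht2
    obtain ⟨t1, -, rfl, h3⟩ := ht1
    obtain ⟨t2, -, rfl, h4⟩ := ht2
    rw [h3] at h4
    exact absurd h4 (by decide)
  · intro hmem
    simp only [Finset.mem_image, Prod.mk.injEq, Finset.mem_erase] at hmem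
    obtain ⟨t, ⟨hta, -⟩, h3, -⟩ := hmem
    exact hta h3
  · intro hmem
    simp only [Finset.mem_image, Prod.mk.injEq, Finset.mem_erase] at hmem
    obtain ⟨t, ⟨hta, -⟩, h3, -⟩ := hmem
    exact hta h3
  · intro i
    refine ⟨?_, ?_⟩
    · simp only
      rw [hsnd]
      exact p1.2 a h1 i
    · intro t ht
      simp only [Finset.mem_image, Prod.mk.injEq, Finset.mem_erase] at ht
      obtain ⟨t1, -, rfl, h3⟩ := ht
      exact p0.2 _ h3 i
  · intro p' hp' hs'
    have hp'' : ∀ t ∈ F0 ∪ F1, t ≠ a → p'.1.1 t = p0.1.1 t := by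
      intro t ht hta
      exact hp' (t, p0.1.1 t) (Finset.mem_image.2 ⟨t, Finset.mem_erase.2 ⟨hta, ht⟩, rfl⟩)
    refine ⟨fun hpa => ?_, fun hpa => ?_⟩
    · have h3 := hF0 p' (fun t ht => by
        by_cases hta : t = a
        · subst hta
          rw [h0]; exact hpa
        · exact hp'' t (Finset.mem_union_left _ ht) hta)
        (fun i hi => hs' ⟨i, lt_of_lt_of_le hi (le_max_left _ _)⟩)
      have h4 : f p' - u = (f p' - f p0) + (f p0 - u) := by ring
      rw [h4]
      refine (abs_add_le _ _).trans_lt ?_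
      linarith
    · have h3 := hF1 p' (fun t ht => by
        by_cases hta : t = a
        · subst hta
          rw [h1]; exact hpa
        · rw [← hagree t hta]
          exact hp'' t (Finset.mem_union_right _ ht) hta)
        (fun i hi => by
          rw [← hsnd]
          exact hs' ⟨i, lt_of_lt_of_le hi (le_max_right _ _)⟩)
      have h4 : f p' - v = (f p' - f p1) + (f p1 - v) := by ring
      rw [h4]
      refine (abs_add_le _ _).trans_lt ?_
      linarith

theorem main_contradiction (A : Set (XX → ℝ)) (hA : IsCompact A) (hAc : ∀ f ∈ A, Continuous f)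
    (x : Ty) (hx : 2 * (x.d : ℝ) < |(x.u : ℝ) - x.v|)
    (hW : ∀ C : Set Td, C.Countable →
      ∃ w ∈ {w : Finset (Td × Bool) × Td | ∃ f ∈ A, Wf f x w}, w.2 ∉ C) : False := by
  classical
  obtain ⟨R, w, y, hw, hR, hlt1, hlt2, hy⟩ := seq_lemma _ hW
  choose f hfA hf using hw
  -- the bounding function
  let y' : ℕ → ℕ := fun j => if h : j < x.n then x.s ⟨j, h⟩ else y j
  -- separation facts
  have hS : ∀ i j t, (t, true) ∈ (w i).1 → (t, false) ∉ (w j).1 := by
    intro i j t h1 h2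
    rcases lt_trichotomy i j with hij | hij | hij
    · by_cases hR1 : (t, false) ∈ R
      · exact (hf i).1 t ⟨h1, hR i hR1⟩
      · exact (hlt1 i j hij _ h2 hR1).1 h1
    · subst hij
      exact (hf i).1 t ⟨h1, h2⟩
    · by_cases hR1 : (t, true) ∈ R
      · exact (hf j).1 t ⟨hR j hR1, h2⟩
      · exact (hlt1 j i hij _ h1 hR1).2.1 h2
  have hSa : ∀ i j b, ((w i).2, b) ∉ (w j).1 := by
    intro i j b h1
    rcases lt_trichotomy i j with hij | hij | hij
    · by_cases hR1 : ((w i).2, b) ∈ R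
      · cases b
        · exact (hf i).2.2.1 (hR i hR1)
        · exact (hf i).2.1 (hR i hR1)
      · exact (hlt1 i j hij _ h1 hR1).2.2 rfl
    · subst hij
      cases b
      · exact (hf i).2.2.1 h1
      · exact (hf i).2.1 h1
    · cases b
      · exact (hlt2 j i hij).2.2 h1
      · exact (hlt2 j i hij).2.1 h1
  have haa : ∀ i j, i ≠ j → (w i).2 ≠ (w j).2 := by
    intro i j hij
    rcases lt_or_gt_of_ne hij with h | h
    · exact (hlt2 i j h).1.symm
    · exact (hlt2 j i h).1
  -- the points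
  let Q : Set ℕ → Td → Bool := fun J t =>
    decide ((∃ i, (t, true) ∈ (w i).1) ∨ ∃ i ∈ J, t = (w i).2)
  have hQ : ∀ J a, Q J a = true → ∀ n, a.co n ≤ y' n := by
    intro J a ha n
    simp only [Q, decide_eq_true_eq] at ha
    by_cases hn : n < x.n
    · simp only [y', hn, dif_pos]
      rcases ha with ⟨i, hi⟩ | ⟨i, -, rfl⟩
      · exact ((hf i).2.2.2.1 ⟨n, hn⟩).2 a hi
      · exact ((hf i).2.2.2.1 ⟨n, hn⟩).1
    · simp only [y', hn, dif_neg, not_false_eq_true]
      rcases ha with ⟨i, hi⟩ | ⟨i, -, rfl⟩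
      · exact (hy n i).2 _ hi
      · exact (hy n i).1
  let P : Set ℕ → XX := fun J => ⟨(Q J, y'), hQ J⟩
  have hP : ∀ (J : Set ℕ) (i : ℕ), (i ∉ J → |f i (P J) - x.u| < x.d) ∧
      (i ∈ J → |f i (P J) - x.v| < x.d) := by
    intro J i
    have h1 := (hf i).2.2.2.2 (P J) (by
      rintro ⟨t, b⟩ hd
      cases b
      · simp only [P, Q]
        rw [decide_eq_false_iff_not]
        rintro (⟨j, hj⟩ | ⟨j, -, rfl⟩)
        · exact hS j i t hj hd
        · exact hSa j i false hd
      · simp only [P, Q]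
        rw [decide_eq_true_eq]
        exact Or.inl ⟨i, hd⟩) (by
      intro j
      simp only [P, y', j.2, dif_pos])
    refine ⟨fun hi => h1.1 ?_, fun hi => h1.2 ?_⟩
    · simp only [P, Q]
      rw [decide_eq_false_iff_not]
      rintro (⟨j, hj⟩ | ⟨j, hj, hj2⟩)
      · exact hSa i j true hj
      · by_cases hij : i = j
        · subst hij; exact hi hj
        · exact haa i j hij hj2
    · simp only [P, Q]
      rw [decide_eq_true_eq]
      exact Or.inr ⟨i, hi, rfl⟩
  -- cluster point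
  obtain ⟨g, hgA, hg⟩ := hA.ultrafilter_le_nhds ((Filter.hyperfilter ℕ).map f) (by
    rw [Ultrafilter.coe_map, Filter.le_principal_iff, Filter.mem_map]
    exact Filter.univ_mem' hfA)
  have hlim : ∀ p : XX, Filter.Tendsto (fun i => f i p) (Filter.hyperfilter ℕ : Filter ℕ)
      (𝓝 (g p)) := by
    intro p
    have : Filter.Tendsto f (Filter.hyperfilter ℕ : Filter ℕ) (𝓝 g) := hg
    exact (tendsto_pi_nhds.1 this) p
  have hgu : ∀ N : ℕ, |g (P {i | i < N}) - x.u| ≤ x.d := by
    intro N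
    have h1 := ((hlim (P {i | i < N})).sub_const (x.u : ℝ)).abs
    refine le_of_tendsto h1 ?_
    have h2 : ∀ᶠ i in (Filter.hyperfilter ℕ : Filter ℕ), i ∉ {i | i < N} :=
      Filter.hyperfilter_le_cofinite (Set.finite_lt_nat N).eventually_cofinite_notMem
    filter_upwards [h2] with i hi
    exact ((hP _ i).1 hi).le
  have hgv : |g (P univ) - x.v| ≤ x.d := by
    have h1 := ((hlim (P univ)).sub_const (x.v : ℝ)).abs
    exact le_of_tendsto h1 (Filter.univ_mem' fun i => ((hP _ i).2 (mem_univ i)).le)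
  have hconv : Filter.Tendsto (fun N : ℕ => P {i | i < N}) Filter.atTop (𝓝 (P univ)) := by
    rw [tendsto_subtype_rng]
    refine Filter.Tendsto.prodMk_nhds ?_ tendsto_const_nhds
    rw [tendsto_pi_nhds]
    intro t
    by_cases ht : ∃ i, t = (w i).2
    · obtain ⟨i, rfl⟩ := ht
      refine tendsto_const_nhds.congr' ?_
      filter_upwards [Filter.eventually_gt_atTop i] with N hN
      simp only [Q]
      rw [decide_eq_decide]
      constructor
      · intro _
        exact Or.inr ⟨i, hN, rfl⟩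
      · intro _
        exact Or.inr ⟨i, mem_univ _, rfl⟩
    · have : ∀ N : ℕ, (P {i | i < N}).1.1 t = (P univ).1.1 t := by
        intro N
        simp only [P, Q]
        rw [decide_eq_decide]
        constructor
        · rintro (h | ⟨i, -, h⟩)
          · exact Or.inl h
          · exact absurd ⟨i, h⟩ ht
        · rintro (h | ⟨i, -, h⟩)
          · exact Or.inl h
          · exact absurd ⟨i, h⟩ ht
      exact tendsto_const_nhds.congr fun N => (this N).symm
  have hglim : Filter.Tendsto (fun N : ℕ => g (P {i | i < N})) Filter.atTop (𝓝 (g (P univ))) :=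
    ((hAc g hgA).tendsto _).comp hconv
  have hgu' : |g (P univ) - x.u| ≤ x.d :=
    le_of_tendsto ((hglim.sub_const (x.u : ℝ)).abs) (Filter.univ_mem' hgu)
  have h5 : (x.u : ℝ) - x.v = (g (P univ) - x.v) - (g (P univ) - x.u) := by ring
  rw [h5] at hx
  have h6 := abs_sub (g (P univ) - x.v) (g (P univ) - x.u)
  linarith

theorem exists_countable_support (A : Set (XX → ℝ)) (hA : IsCompact A)
    (hAc : ∀ f ∈ A, Continuous f) :
    ∃ C : Set Td, C.Countable ∧ ∀ f ∈ A, ∀ p, f (restr C p) = f p := by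
  by_contra hcon
  push Not at hcon
  have hT := countable_Ty
  have key : ∃ x : Ty, 2 * (x.d : ℝ) < |(x.u : ℝ) - x.v| ∧ ∀ C : Set Td, C.Countable →
      ∃ w ∈ {w : Finset (Td × Bool) × Td | ∃ f ∈ A, Wf f x w}, w.2 ∉ C := by
    by_contra hcon2
    push Not at hcon2
    have h1 : ∀ x : Ty, ∃ C : Set Td, C.Countable ∧ (2 * (x.d : ℝ) < |(x.u : ℝ) - x.v| →
        ∀ w ∈ {w : Finset (Td × Bool) × Td | ∃ f ∈ A, Wf f x w}, w.2 ∈ C) := by
      intro x
      by_cases hx : 2 * (x.d : ℝ) < |(x.u : ℝ) - x.v|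
      · obtain ⟨C, hC, h2⟩ := hcon2 x hx
        exact ⟨C, hC, fun _ => h2⟩
      · exact ⟨∅, countable_empty, fun h => absurd h hx⟩
    choose C hC h2 using h1
    obtain ⟨f, hfA, p, hne⟩ := hcon (⋃ x, C x) (countable_iUnion hC)
    obtain ⟨x, w, hx, hwC, hw⟩ := exists_witness f (hAc f hfA) _ p hne
    exact hwC (mem_iUnion.2 ⟨x, h2 x hx w ⟨f, hfA, hw⟩⟩)
  obtain ⟨x, hx, hW⟩ := key
  exact main_contradiction A hA hAc x hx hW


/-- A compact metrizable space embeds in a Banach space with the weak topology. -/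
theorem embed_of_metrizable (B : Type) [TopologicalSpace B] [CompactSpace B]
    [TopologicalSpace.MetrizableSpace B] :
    ∃ (E : Type) (_ : NormedAddCommGroup E) (_ : NormedSpace ℝ E) (_ : CompleteSpace E)
      (e : B → WeakSpace ℝ E), Topology.IsEmbedding e := by
  let _ := TopologicalSpace.metrizableSpaceMetric B
  refine ⟨lp (fun _ : ℕ => ℝ) ⊤, inferInstance, inferInstance, inferInstance,
    fun b => toWeakSpaceCLM ℝ _ (kuratowskiEmbedding B b), ?_⟩
  have hc : Continuous (fun b : B => toWeakSpaceCLM ℝ _ (kuratowskiEmbedding B b)) :=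
    (toWeakSpaceCLM ℝ _).continuous.comp (kuratowskiEmbedding.isometry B).continuous
  have hi : Function.Injective (fun b : B => toWeakSpaceCLM ℝ _ (kuratowskiEmbedding B b)) := by
    intro b b' h
    exact (kuratowskiEmbedding.isometry B).injective ((toWeakSpaceCLM_bijective (𝕜 := ℝ)).1 h)
  exact (hc.isClosedEmbedding hi).isEmbedding

/-- Every compact set of continuous functions on `XX` is metrizable. -/
theorem metrizable_of_compact (A : Set (XX → ℝ)) (hA : IsCompact A)
    (hAc : ∀ f ∈ A, Continuous f) : TopologicalSpace.MetrizableSpace A := by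
  classical
  obtain ⟨C, hC, hCA⟩ := exists_countable_support A hA hAc
  have : Countable C := hC.to_subtype
  let Y : Type := {p : XX // ∀ t, t ∉ C → p.1.1 t = false}
  let π : Y → (C → Bool) × (ℕ → ℕ) := fun q => (fun c => q.1.1.1 c, q.1.1.2)
  let j : (C → Bool) × (ℕ → ℕ) → (Td → Bool) × (ℕ → ℕ) :=
    fun z => (fun t => if h : t ∈ C then z.1 ⟨t, h⟩ else false, z.2)
  have hπ : Continuous π := by
    refine Continuous.prodMk (continuous_pi fun c => ?_) ?_
    · exact (continuous_apply (c : Td)).comp (continuous_fst.comp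
        (continuous_subtype_val.comp continuous_subtype_val))
    · exact continuous_snd.comp (continuous_subtype_val.comp continuous_subtype_val)
  have hj : Continuous j := by
    refine Continuous.prodMk (continuous_pi fun t => ?_) continuous_snd
    by_cases h : t ∈ C
    · simp only [h, dif_pos]
      exact (continuous_apply _).comp continuous_fst
    · simp only [h, dif_neg, not_false_eq_true]
      exact continuous_const
  have hcomp : j ∘ π = fun q : Y => ((q.1 : XX) : (Td → Bool) × (ℕ → ℕ)) := by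
    funext q
    refine Prod.ext ?_ rfl
    funext t
    simp only [Function.comp, j, π]
    by_cases h : t ∈ C
    · simp [h]
    · simp [h, q.2 t h]
  have hind : IsInducing (j ∘ π) := by
    rw [hcomp]
    exact IsInducing.subtypeVal.comp IsInducing.subtypeVal
  have hπi : IsInducing π := IsInducing.of_comp hπ hj hind
  have hsc : SecondCountableTopology Y := hπi.secondCountableTopology
  obtain ⟨D, hDc, hDd⟩ := TopologicalSpace.exists_countable_dense Y
  have : Countable D := hDc.to_subtype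
  have : CompactSpace A := isCompact_iff_compactSpace.1 hA
  let Φ : A → (D → ℝ) := fun f d => f.1 d.1.1
  have hΦ : Continuous Φ := continuous_pi fun d =>
    (continuous_apply (d.1.1 : XX)).comp continuous_subtype_val
  have hΦi : Function.Injective Φ := by
    intro f g hfg
    apply Subtype.ext
    funext p
    have h1 : (fun q : Y => f.1 q.1) = fun q : Y => g.1 q.1 := by
      refine Continuous.ext_on hDd ((hAc f.1 f.2).comp continuous_subtype_val)
        ((hAc g.1 g.2).comp continuous_subtype_val) ?_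
      intro d hd
      exact congrFun hfg ⟨d, hd⟩
    have h2 := congrFun h1 ⟨restr C p, fun t ht => restr_of_notMem ht⟩
    simp only at h2
    rw [← hCA f.1 f.2 p, ← hCA g.1 g.2 p, h2]
  exact (hΦ.isClosedEmbedding hΦi).isEmbedding.metrizableSpace

theorem hyp_XX (A : Set (XX → ℝ)) (hAc : ∀ f ∈ A, Continuous f) (hA : IsCompact A) :
    ∃ (E : Type) (_ : NormedAddCommGroup E) (_ : NormedSpace ℝ E) (_ : CompleteSpace E)
      (e : A → WeakSpace ℝ E), Topology.IsEmbedding e := by
  have : CompactSpace A := isCompact_iff_compactSpace.1 hA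
  have := metrizable_of_compact A hA hAc
  exact embed_of_metrizable A

/-! ### The Talagrand compact -/

/-- first difference -/
noncomputable def fd (a b : Td) : ℕ := PiNat.firstDiff (E := fun _ => ℕ) a b

theorem co_fd_ne {a b : Td} (h : a ≠ b) : a.co (fd a b) ≠ b.co (fd a b) :=
  PiNat.apply_firstDiff_ne (E := fun _ => ℕ) h

/-- The adequate family: sets of indices any two of which first differ at the same place. -/
def AF : Set (Td → Bool) := {a | ∀ x y z w : Td, a x = true → a y = true → a z = true →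
  a w = true → x ≠ y → z ≠ w → fd x y = fd z w}

theorem isClosed_AF : IsClosed AF := by
  have : AF = ⋂ (x : Td) (y : Td) (z : Td) (w : Td),
      (fun a : Td → Bool => ((a x, a y), (a z, a w))) ⁻¹'
        {q : (Bool × Bool) × (Bool × Bool) | q.1.1 = true → q.1.2 = true → q.2.1 = true →
          q.2.2 = true → x ≠ y → z ≠ w → fd x y = fd z w} := by
    ext a
    simp only [AF, mem_iInter]
    rfl
  rw [this]
  refine isClosed_iInter fun x => isClosed_iInter fun y => isClosed_iInter fun z =>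
    isClosed_iInter fun w => ?_
  refine (isClosed_discrete _).preimage ?_
  exact ((continuous_apply x).prodMk (continuous_apply y)).prodMk
    ((continuous_apply z).prodMk (continuous_apply w))

theorem isCompact_AF : IsCompact AF := isClosed_AF.isCompact

theorem AF_injOn {a : Td → Bool} (ha : a ∈ AF) :
    ∃ n, InjOn (fun t : Td => t.co n) {t | a t = true} := by
  by_cases h : ∃ x y : Td, a x = true ∧ a y = true ∧ x ≠ y
  · obtain ⟨x, y, hx, hy, hxy⟩ := h
    refine ⟨fd x y, ?_⟩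
    intro z hz w hw hzw
    by_contra hne
    rw [ha x y z w hx hy hz hw hxy hne] at hzw
    exact co_fd_ne hne hzw
  · refine ⟨0, ?_⟩
    intro z hz w hw _
    by_contra hne
    exact h ⟨z, w, hz, hw, hne⟩

/-- The function on `XX × OnePoint Td` given by a member of the family. -/
noncomputable def FF (a : Td → Bool) (q : XX × OnePoint Td) : ℝ :=
  q.2.elim 0 (fun t => if a t = true ∧ q.1.1.1 t = true then 1 else 0)

theorem FF_continuous_left : Continuous FF := by
  refine continuous_pi ?_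
  rintro ⟨p, k⟩
  induction k using OnePoint.rec with
  | infty => exact continuous_const
  | coe t =>
    have : (fun a : Td → Bool => FF a (p, (t : OnePoint Td))) =
        (fun b : Bool => if b = true ∧ p.1.1 t = true then (1 : ℝ) else 0) ∘ (fun a => a t) := rfl
    rw [this]
    exact continuous_of_discreteTopology.comp (continuous_apply t)

theorem FF_continuous {a : Td → Bool} (ha : a ∈ AF) : Continuous (FF a) := by
  rw [continuous_iff_continuousAt]
  rintro ⟨p, k⟩
  induction k using OnePoint.rec with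
  | infty =>
    obtain ⟨n, hn⟩ := AF_injOn ha
    have hfin : {t : Td | a t = true ∧ t.co n ≤ p.1.2 n}.Finite := by
      refine Set.Finite.of_finite_image (f := fun t : Td => t.co n) ?_ ?_
      · refine (Set.finite_le_nat (p.1.2 n)).subset ?_
        rintro _ ⟨t, ht, rfl⟩
        exact ht.2
      · exact hn.mono fun t ht => ht.1
    have hopen1 : {q : XX × OnePoint Td | q.1.1.2 n = p.1.2 n} ∈ 𝓝 (p, (OnePoint.infty : OnePoint Td)) := by
      have hc : Continuous (fun q : XX × OnePoint Td => q.1.1.2 n) :=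
        (continuous_apply n).comp (continuous_snd.comp (continuous_subtype_val.comp continuous_fst))
      exact (hc.isOpen_preimage {p.1.2 n} (isOpen_discrete _)).mem_nhds rfl
    have hopen2 : {q : XX × OnePoint Td | q.2 ∉ OnePoint.some '' {t : Td | a t = true ∧ t.co n ≤ p.1.2 n}} ∈
        𝓝 (p, (OnePoint.infty : OnePoint Td)) := by
      have hc : IsClosed (OnePoint.some '' {t : Td | a t = true ∧ t.co n ≤ p.1.2 n}) :=
        (hfin.image _).isClosed
      exact (hc.isOpen_compl.preimage continuous_snd).mem_nhds (by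
        rintro ⟨t, -, ht⟩
        exact OnePoint.coe_ne_infty t ht)
    have : FF a =ᶠ[𝓝 (p, (OnePoint.infty : OnePoint Td))] fun _ => 0 := by
      filter_upwards [hopen1, hopen2] with q h1 h2
      rcases q with ⟨p', k'⟩
      induction k' using OnePoint.rec with
      | infty => rfl
      | coe t =>
        show (if a t = true ∧ p'.1.1 t = true then (1 : ℝ) else 0) = 0
        rw [if_neg]
        rintro ⟨h3, h4⟩
        apply h2
        refine ⟨t, ⟨h3, ?_⟩, rfl⟩
        have h5 := p'.2 t h4 n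
        have h6 : p'.1.2 n = p.1.2 n := h1
        rw [h6] at h5
        exact h5
    exact (continuousAt_const (y := (0:ℝ))).congr this.symm
  | coe t =>
    have hopen : {q : XX × OnePoint Td | q.2 = (t : OnePoint Td)} ∈ 𝓝 (p, (t : OnePoint Td)) := by
      have ho : IsOpen ({(t : OnePoint Td)} : Set (OnePoint Td)) := by
        have := OnePoint.isOpenEmbedding_coe.isOpenMap _ (isOpen_discrete ({t} : Set Td))
        rwa [image_singleton] at this
      exact (ho.preimage continuous_snd).mem_nhds rfl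
    have heq : FF a =ᶠ[𝓝 (p, (t : OnePoint Td))]
        (fun b : Bool => if a t = true ∧ b = true then (1 : ℝ) else 0) ∘
          (fun q : XX × OnePoint Td => q.1.1.1 t) := by
      filter_upwards [hopen] with q hq
      rcases q with ⟨p', k'⟩
      have hq' : k' = (t : OnePoint Td) := hq
      subst hq'
      rfl
    have hc : Continuous ((fun b : Bool => if a t = true ∧ b = true then (1 : ℝ) else 0) ∘
          (fun q : XX × OnePoint Td => q.1.1.1 t)) :=
      continuous_of_discreteTopology.comp ((continuous_apply t).comp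
        (continuous_fst.comp (continuous_subtype_val.comp continuous_fst)))
    exact hc.continuousAt.congr heq.symm

theorem FF_injective : Function.Injective FF := by
  classical
  intro a b h
  funext t
  let p : XX := ⟨(fun s => decide (s = t), fun n => t.co n), by
    intro s hs n
    have : s = t := by simpa using hs
    rw [this]⟩
  have h1 := congrFun h (p, (t : OnePoint Td))
  have ha : ∀ c : Td → Bool, FF c (p, (t : OnePoint Td)) = if c t = true then 1 else 0 := by
    intro c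
    show (if c t = true ∧ p.1.1 t = true then (1 : ℝ) else 0) = _
    have : p.1.1 t = true := by simp [p]
    simp [this]
  rw [ha a, ha b] at h1
  cases hat : a t <;> cases hbt : b t <;> simp_all

section noneb

/-- the basic compact sets -/
def base (Z0 : Set (AF → ℝ)) (n : ℕ) : Set (AF → ℝ) :=
  Z0 ∪ (fun r : ℝ => fun _ : AF => r) '' Icc (-(n : ℝ)) n

/-- the compact sets -/
def ZZ (Z0 : Set (AF → ℝ)) : ℕ → Set (AF → ℝ)
  | 0 => base Z0 0
  | n + 1 => ZZ Z0 n ∪ Set.image2 (· + ·) (ZZ Z0 n) (ZZ Z0 n) ∪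
      Set.image2 (· * ·) (ZZ Z0 n) (ZZ Z0 n) ∪ base Z0 (n + 1)

theorem base_compact {Z0 : Set (AF → ℝ)} (hZ : IsCompact Z0) (n : ℕ) : IsCompact (base Z0 n) := by
  refine IsCompact.union hZ ?_
  exact isCompact_Icc.image (continuous_pi fun _ => continuous_id)

theorem image2_compact {S T : Set (AF → ℝ)} (hS : IsCompact S) (hT : IsCompact T)
    {op : (AF → ℝ) → (AF → ℝ) → (AF → ℝ)}
    (hop : Continuous fun z : (AF → ℝ) × (AF → ℝ) => op z.1 z.2) :
    IsCompact (Set.image2 op S T) := by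
  rw [← Set.image_prod]
  exact (hS.prod hT).image hop

theorem ZZ_compact {Z0 : Set (AF → ℝ)} (hZ : IsCompact Z0) (n : ℕ) : IsCompact (ZZ Z0 n) := by
  induction n with
  | zero => exact base_compact hZ 0
  | succ n ih =>
    exact ((ih.union (image2_compact ih ih continuous_add)).union
      (image2_compact ih ih continuous_mul)).union (base_compact hZ (n + 1))

theorem ZZ_continuous {Z0 : Set (AF → ℝ)} (hc : ∀ z ∈ Z0, Continuous z) (n : ℕ) :
    ∀ h ∈ ZZ Z0 n, Continuous h := by
  have hb : ∀ n, ∀ h ∈ base Z0 n, Continuous h := by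
    rintro n h (h1 | ⟨r, -, rfl⟩)
    · exact hc h h1
    · exact continuous_const
  induction n with
  | zero => exact hb 0
  | succ n ih =>
    rintro h (((h1 | ⟨h1, hh1, h2, hh2, rfl⟩) | ⟨h1, hh1, h2, hh2, rfl⟩) | h1)
    · exact ih h h1
    · exact (ih h1 hh1).add (ih h2 hh2)
    · exact (ih h1 hh1).mul (ih h2 hh2)
    · exact hb _ h h1

theorem ZZ_mono (Z0 : Set (AF → ℝ)) : Monotone (ZZ Z0) :=
  monotone_nat_of_le_succ fun _ _ h => Or.inl (Or.inl (Or.inl h))

theorem base_sub_ZZ (Z0 : Set (AF → ℝ)) (n : ℕ) : base Z0 n ⊆ ZZ Z0 n := by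
  cases n with
  | zero => exact Subset.rfl
  | succ n => exact fun h hh => Or.inr hh

/-- the dense subalgebra -/
def SA (Z0 : Set (AF → ℝ)) : Subalgebra ℝ C(AF, ℝ) where
  carrier := {f | ∃ n, (f : AF → ℝ) ∈ ZZ Z0 n}
  mul_mem' := by
    rintro a b ⟨n, hn⟩ ⟨m, hm⟩
    refine ⟨max n m + 1, ?_⟩
    refine Or.inl (Or.inr ⟨a, ZZ_mono Z0 (le_max_left n m) hn, b,
      ZZ_mono Z0 (le_max_right n m) hm, rfl⟩)
  add_mem' := by
    rintro a b ⟨n, hn⟩ ⟨m, hm⟩
    refine ⟨max n m + 1, ?_⟩
    refine Or.inl (Or.inl (Or.inr ⟨a, ZZ_mono Z0 (le_max_left n m) hn, b,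
      ZZ_mono Z0 (le_max_right n m) hm, rfl⟩))
  algebraMap_mem' := by
    intro r
    obtain ⟨n, hn⟩ := exists_nat_ge |r|
    refine ⟨n, base_sub_ZZ Z0 n (Or.inr ⟨r, abs_le.1 hn, ?_⟩)⟩
    funext a
    rfl

theorem SA_separates {Z0 : Set (AF → ℝ)} (hc : ∀ z ∈ Z0, Continuous z)
    (hsep : ∀ a b : AF, a ≠ b → ∃ z ∈ Z0, z a ≠ z b) :
    (SA Z0).SeparatesPoints := by
  intro a b hab
  obtain ⟨z, hz, hne⟩ := hsep a b hab
  exact ⟨z, ⟨⟨z, hc z hz⟩, ⟨0, base_sub_ZZ Z0 0 (Or.inl hz)⟩, rfl⟩, hne⟩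

/-- restriction of an infinite member -/
noncomputable def bset (s : ℕ → Td) (J : Set ℕ) : Td → Bool :=
  open Classical in fun t => decide (∃ i ∈ J, t = s i)

theorem bset_true {s : ℕ → Td} {J : Set ℕ} {t : Td} : bset s J t = true ↔ ∃ i ∈ J, t = s i := by
  simp [bset]

theorem no_infinite {Z0 : Set (AF → ℝ)} (hZ : IsCompact Z0) (hc : ∀ z ∈ Z0, Continuous z)
    (z : Td → AF → ℝ) (m : ℕ)
    (s : ℕ → Td) (hs : Function.Injective s) (hsAF : ∀ J, bset s J ∈ AF)
    (hz : ∀ i, z (s i) ∈ ZZ Z0 m)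
    (hza : ∀ i, ∀ a : AF, |z (s i) a - (if (a : Td → Bool) (s i) = true then 1 else 0)| < 1 / 3) :
    False := by
  obtain ⟨h, hh, hlim⟩ := (ZZ_compact hZ m).ultrafilter_le_nhds
    ((Filter.hyperfilter ℕ).map fun i => z (s i)) (by
    rw [Ultrafilter.coe_map, Filter.le_principal_iff, Filter.mem_map]
    exact Filter.univ_mem' hz)
  have hlim' : ∀ a : AF, Filter.Tendsto (fun i => z (s i) a) (Filter.hyperfilter ℕ : Filter ℕ)
      (𝓝 (h a)) := by
    intro a
    have : Filter.Tendsto (fun i => z (s i)) (Filter.hyperfilter ℕ : Filter ℕ) (𝓝 h) := hlim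
    exact (tendsto_pi_nhds.1 this) a
  let P : Set ℕ → AF := fun J => ⟨bset s J, hsAF J⟩
  have h1 : ∀ N : ℕ, h (P {i | i < N}) ≤ 1 / 3 := by
    intro N
    refine le_of_tendsto (hlim' _) ?_
    have h2 : ∀ᶠ i in (Filter.hyperfilter ℕ : Filter ℕ), i ∉ {i | i < N} :=
      Filter.hyperfilter_le_cofinite (Set.finite_lt_nat N).eventually_cofinite_notMem
    filter_upwards [h2] with i hi
    have h3 := hza i (P {i | i < N})
    have h4 : ¬ ((P {i | i < N} : Td → Bool) (s i) = true) := by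
      simp only [P]
      rw [bset_true]
      rintro ⟨j, hj, hji⟩
      rw [hs hji] at hi
      exact hi hj
    rw [if_neg h4, sub_zero, abs_lt] at h3
    exact h3.2.le
  have h2 : 2 / 3 ≤ h (P univ) := by
    refine ge_of_tendsto (hlim' _) (Filter.univ_mem' fun i => ?_)
    have h3 := hza i (P univ)
    have h4 : (P univ : Td → Bool) (s i) = true := by
      simp only [P]
      rw [bset_true]
      exact ⟨i, mem_univ _, rfl⟩
    rw [if_pos h4, abs_lt] at h3
    show 2 / 3 ≤ z (s i) (P univ)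
    linarith [h3.1]
  have hconv : Filter.Tendsto (fun N : ℕ => P {i | i < N}) Filter.atTop (𝓝 (P univ)) := by
    rw [tendsto_subtype_rng, tendsto_pi_nhds]
    intro t
    by_cases ht : ∃ i, t = s i
    · obtain ⟨i, rfl⟩ := ht
      refine tendsto_const_nhds.congr' ?_
      filter_upwards [Filter.eventually_gt_atTop i] with N hN
      simp only [P]
      rw [bset_true.2 ⟨i, mem_univ _, rfl⟩, bset_true.2 ⟨i, hN, rfl⟩]
    · have : ∀ J : Set ℕ, bset s J t = false := by
        intro J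
        rw [← Bool.not_eq_true, bset_true]
        rintro ⟨i, -, h⟩
        exact ht ⟨i, h⟩
      simp only [P, this]
      exact tendsto_const_nhds
  have h3 : h (P univ) ≤ 1 / 3 :=
    le_of_tendsto (((ZZ_continuous hc m h hh).tendsto _).comp hconv) (Filter.univ_mem' h1)
  linarith

theorem baire (N : Td → ℕ) : ∃ (m n : ℕ) (s : ℕ → Td), (∀ v, N (s v) = m) ∧
    (∀ v, (s v).co n = v) ∧ ∀ v v', ∀ i < n, (s v).co i = (s v').co i := by
  obtain ⟨m, hm⟩ := nonempty_interior_of_iUnion_of_closed (X := ℕ → ℕ) (ι := ℕ)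
    (f := fun m => closure {a : ℕ → ℕ | N a = m}) (fun m => isClosed_closure) (by
      rw [eq_univ_iff_forall]
      intro a
      exact mem_iUnion.2 ⟨N a, subset_closure rfl⟩)
  obtain ⟨x, hx⟩ := hm
  obtain ⟨c, ⟨y, n, rfl⟩, hxy, hsub⟩ :=
    (PiNat.isTopologicalBasis_cylinders (fun _ => ℕ)).exists_subset_of_mem_open hx isOpen_interior
  refine ⟨m, n, ?_⟩
  have key : ∀ v : ℕ, ∃ a : Td, N a = m ∧ a.co n = v ∧ ∀ i < n, a.co i = y i := by
    intro v
    have h1 : Function.update y n v ∈ PiNat.cylinder (E := fun _ => ℕ) y n := by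
      intro i hi
      exact Function.update_of_ne (ne_of_lt hi) _ _
    have h2 : Function.update y n v ∈ closure {a : ℕ → ℕ | N a = m} :=
      interior_subset (hsub h1)
    obtain ⟨a, ha1, ha2⟩ := mem_closure_iff.1 h2
      (PiNat.cylinder (E := fun _ => ℕ) (Function.update y n v) (n + 1))
      (PiNat.isOpen_cylinder _ _ _) (PiNat.self_mem_cylinder _ _)
    refine ⟨a, ha2, ?_, ?_⟩
    · have := ha1 n (Nat.lt_succ_self n)
      rw [Function.update_self] at this
      exact this
    · intro i hi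
      have := ha1 i (Nat.lt_succ_of_lt hi)
      rw [Function.update_of_ne (ne_of_lt hi)] at this
      exact this
  choose s h1 h2 h3 using key
  exact ⟨s, h1, h2, fun v v' i hi => by rw [h3 v i hi, h3 v' i hi]⟩

theorem fd_eq {a b : Td} {n : ℕ} (h1 : ∀ i < n, a.co i = b.co i) (h2 : a.co n ≠ b.co n) :
    fd a b = n := by
  have hne : a ≠ b := fun h => h2 (by rw [h])
  rcases lt_trichotomy (fd a b) n with h | h | h
  · exact absurd (h1 _ h) (co_fd_ne hne)
  · exact h
  · exact absurd (PiNat.apply_eq_of_lt_firstDiff (E := fun _ => ℕ) h) h2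

/-- **No compact set of continuous functions separates the points of the Talagrand compact.** -/
theorem not_sep (Z0 : Set (AF → ℝ)) (hZ : IsCompact Z0) (hc : ∀ z ∈ Z0, Continuous z)
    (hsep : ∀ a b : AF, a ≠ b → ∃ z ∈ Z0, z a ≠ z b) : False := by
  have : CompactSpace AF := isCompact_iff_compactSpace.1 isCompact_AF
  have key : ∀ t : Td, ∃ f : C(AF, ℝ), (∃ n, (f : AF → ℝ) ∈ ZZ Z0 n) ∧
      ∀ a : AF, |f a - (if (a : Td → Bool) t = true then 1 else 0)| < 1 / 3 := by
    intro t
    let pt : C(AF, ℝ) := ⟨fun a => if (a : Td → Bool) t = true then 1 else 0, by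
      have : (fun a : AF => if (a : Td → Bool) t = true then (1 : ℝ) else 0) =
        (fun b : Bool => if b = true then (1 : ℝ) else 0) ∘ (fun a : AF => (a : Td → Bool) t) := rfl
      rw [this]
      exact continuous_of_discreteTopology.comp
        ((continuous_apply t).comp continuous_subtype_val)⟩
    obtain ⟨f, hf⟩ := ContinuousMap.exists_mem_subalgebra_near_continuousMap_of_separatesPoints
      (SA Z0) (SA_separates hc hsep) pt (1 / 3) (by norm_num)
    refine ⟨f, f.2, fun a => ?_⟩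
    exact lt_of_le_of_lt (ContinuousMap.norm_coe_le_norm ((f : C(AF, ℝ)) - pt) a) hf
  choose f hf hfa using key
  choose N hN using hf
  obtain ⟨m, n, s, hs1, hs2, hs3⟩ := baire N
  have hsinj : Function.Injective s := by
    intro v v' h
    rw [← hs2 v, ← hs2 v', h]
  refine no_infinite hZ hc (fun t => f t) m s hsinj ?_ ?_ ?_
  · intro J x y z w hx hy hz hw hxy hzw
    rw [bset_true] at hx hy hz hw
    obtain ⟨i1, -, rfl⟩ := hx
    obtain ⟨i2, -, rfl⟩ := hy
    obtain ⟨i3, -, rfl⟩ := hz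
    obtain ⟨i4, -, rfl⟩ := hw
    have h1 : i1 ≠ i2 := fun h => hxy (by rw [h])
    have h2 : i3 ≠ i4 := fun h => hzw (by rw [h])
    rw [fd_eq (hs3 i1 i2) (by rw [hs2, hs2]; exact h1), fd_eq (hs3 i3 i4) (by rw [hs2, hs2]; exact h2)]
  · intro i
    have := hN (s i)
    rw [hs1] at this
    exact this
  · intro i a
    exact hfa (s i) a

end noneb

/-- evaluation of dual elements along `g` -/
noncomputable def psi {E : Type u} [NormedAddCommGroup E] [NormedSpace ℝ E]
    (g : AF → WeakSpace ℝ E) (L : WeakDual ℝ E) : AF → ℝ :=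
  fun a => L ((toWeakSpace ℝ E).symm (g a))

/-- The Talagrand compact has no continuous injection into a Banach space with its weak
topology. -/
theorem not_eberlein {E : Type u} [NormedAddCommGroup E] [NormedSpace ℝ E]
    (g : AF → WeakSpace ℝ E) (hg : Continuous g) (hinj : Function.Injective g) : False := by
  refine not_sep (psi g '' (WeakDual.toStrongDual ⁻¹' Metric.closedBall (0 : StrongDual ℝ E) 1))
    ((WeakDual.isCompact_closedBall _ _).image (continuous_pi fun _ => WeakDual.eval_continuous _))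
    ?_ ?_
  · rintro _ ⟨L, -, rfl⟩
    have h := WeakBilin.eval_continuous (topDualPairing ℝ E).flip (WeakDual.toStrongDual L)
    exact h.comp hg
  · intro a b hab
    have h1 : (toWeakSpace ℝ E).symm (g a) ≠ (toWeakSpace ℝ E).symm (g b) := by
      intro h
      exact hab (hinj ((toWeakSpace ℝ E).symm.injective h))
    obtain ⟨L, hL⟩ := SeparatingDual.exists_separating_of_ne (R := ℝ) h1
    have hLpos : 0 < ‖L‖ := by
      rw [norm_pos_iff]
      rintro rfl
      exact hL rfl
    refine ⟨psi g (StrongDual.toWeakDual (‖L‖⁻¹ • L)), ⟨_, ?_, rfl⟩, ?_⟩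
    · rw [mem_preimage, StrongDual.toStrongDual_toWeakDual, mem_closedBall_zero_iff, norm_smul,
        norm_inv, norm_norm, inv_mul_cancel₀ hLpos.ne']
    · intro h
      apply hL
      have h2 : ‖L‖⁻¹ * L ((toWeakSpace ℝ E).symm (g a)) =
          ‖L‖⁻¹ * L ((toWeakSpace ℝ E).symm (g b)) := h
      exact mul_left_cancel₀ (inv_ne_zero hLpos.ne') h2

/-- The Talagrand compact has no continuous injection into `C_p(Y)` for a compact `Y`. -/
theorem not_cp {Y : Type u} [TopologicalSpace Y] [CompactSpace Y] (e : AF → Y → ℝ)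
    (he : Continuous e) (hc : ∀ a, Continuous (e a)) (hinj : Function.Injective e) : False := by
  refine not_sep (range fun (y : Y) (a : AF) => e a y) (isCompact_range
    (continuous_pi fun a => hc a)) ?_ ?_
  · rintro _ ⟨y, rfl⟩
    exact (continuous_apply y).comp he
  · intro a b hab
    by_contra hcon
    push Not at hcon
    exact hab (hinj (funext fun y => hcon _ ⟨y, rfl⟩))

end Pool.Agent.EBC
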